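import Pool.Agent.Lib.MP_467141_H17.Stmt
import Pool.Agent.Lib.MP_467141_H17.Main
import Pool.Agent.Lib.MP_467141_H17.CB2

/-! Cross-characteristic restrictions from `G(q^m)` to `G(q)`, all untwisted Chevalley types:
Chevalley bases exist for every irreducible reduced root system, and for each of them the
statement of Q1 holds. -/

universe u v w x y

open Pool.Agent.MP_467141 in
theorem Pool.Agent.Results.MP_467141_al.AllTypes.result
    {ι k M N : Type u} [Field k] [CharZero k] [AddCommGroup M] [Module k M]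
    [AddCommGroup N] [Module k N] [Fintype ι] [Nonempty ι] [DecidableEq ι]
    (P : RootPairing ι k M N) [P.IsCrystallographic] [P.IsReduced] [P.IsIrreducible]
    (b : P.Base) :
    (∃ (L : Type u) (_ : LieRing L), Nonempty (ChevalleyBasis P b L)) ∧
    ∀ {L : Type u} [LieRing L] (B : ChevalleyBasis P b L)
      (K : Type v) [Field K] [Finite K] (_hs : IsSimpleGroup (B.GK K)),
      ∃ m : ℕ, 1 ≤ m ∧ ∀ (K' : Type v) [Field K'] [Algebra K K'], Module.finrank K K' = m →
        ∀ (F : Type w) [Field F], ringChar F ≠ ringChar K →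
          RestrictsToAll.{_, _, _, x, y} (B.emb K K') F := by
  refine ⟨CB.exists_chevalleyBasis_of_charZero b, ?_⟩
  intro L _ B K _ _ _hs
  obtain ⟨m, hm, h⟩ := B.main K _hs
  exact ⟨m, hm, fun K' _ _ hK' F _ hF V _ _ _ ρ hρ hd W _ _ σ hσ =>
    h K' hK' F hF V ρ hρ hd W σ hσ⟩
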